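import Pool.Agent.H93.CG.Stage1

set_option autoImplicit false

/-! # The residue classes modulo the small primes (helper93) -/

namespace Pool.Agent.H93.CG

open Finset Filter Pool.Agent.H318R2.Cr Pool.Agent.H398R2.RK Pool.Agent.K4H10.EX

open scoped Classical

theorem ev_sieve (ε C : ℝ) (hε : 0 < ε) (hC : 0 ≤ C) : ∃ t₀ : ℝ, ∀ t : ℝ, t₀ ≤ t →
    16 ≤ t ∧ 1 ≤ Real.log t ∧ 4 ≤ V0 ε t ∧ V0 ε t ≤ Real.exp t - 1 ∧
      V0 ε t ≤ (1 + ε / 2) * (V0 ε t - 1) ∧ C / (V0 ε t - 1) ≤ Real.log (1 + ε / 2) := by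
  have hl : 0 < Real.log (1 + ε / 2) := Real.log_pos (by linarith)
  set A : ℝ := max 16 (max (2 * (1 + ε)) (max (2 * (1 + ε) * (1 + 2 / ε + 1 + C / Real.log (1 + ε / 2)))
    (2 / ε + 1))) with hA
  refine ⟨A + 16, fun t ht => ?_⟩
  have h16 : 16 ≤ A := le_max_left _ _
  have h3 : 2 * (1 + ε) * (1 + 2 / ε + 1 + C / Real.log (1 + ε / 2)) ≤ A :=
    (le_max_left _ _).trans ((le_max_right _ _).trans (le_max_right _ _))
  have ht0 : 0 < t := by linarith
  have hlt : 1 ≤ Real.log t := by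
    rw [Real.le_log_iff_exp_le ht0]
    have := Real.exp_one_lt_d9
    linarith
  have hltt : Real.log t ≤ t - 1 := Real.log_le_sub_one_of_pos ht0
  have het : t ^ 3 / 6 ≤ Real.exp t := by
    have h7 := Real.pow_div_factorial_le_exp t ht0.le 3
    norm_num [Nat.factorial] at h7
    linarith
  have het2 : t ^ 2 / 2 ≤ Real.exp t := by
    have := Real.quadratic_le_exp_of_nonneg ht0.le
    linarith
  -- `V0 ≥ t / (2 (1 + ε))`
  have hV : t / (2 * (1 + ε)) ≤ V0 ε t := by
    unfold V0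
    rw [div_le_div_iff₀ (by positivity) (by positivity)]
    have e1 : t * t / 2 * 1 ≤ Real.exp t * Real.log t := by
      apply mul_le_mul (by nlinarith) hlt (by norm_num) (Real.exp_pos _).le
    have e2 : 0 < 1 + ε := by linarith
    nlinarith
  have hV2 : 1 + 2 / ε + 1 + C / Real.log (1 + ε / 2) ≤ V0 ε t := by
    refine le_trans ?_ hV
    rw [le_div_iff₀ (by positivity)]
    linarith
  have hCl : 0 ≤ C / Real.log (1 + ε / 2) := by positivity
  have hε2 : 0 < 2 / ε := by positivity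
  have hV3 : V0 ε t ≤ Real.exp t - 1 := by
    unfold V0
    rw [div_le_iff₀ (by positivity)]
    have e1 : Real.exp t * Real.log t ≤ Real.exp t * (t - 1) :=
      mul_le_mul_of_nonneg_left hltt (Real.exp_pos _).le
    have e2 : t ≤ Real.exp t := by
      have := Real.add_one_le_exp t
      linarith
    have e3 : 0 ≤ (Real.exp t - 1) * (ε * t) := by
      have : 1 ≤ Real.exp t := Real.one_le_exp ht0.le
      apply mul_nonneg (by linarith) (by positivity)
    nlinarith
  have hV4 : 4 ≤ V0 ε t := by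
    unfold V0
    rw [le_div_iff₀ (by positivity)]
    have e1 : t ^ 3 / 6 * 1 ≤ Real.exp t * Real.log t := by
      apply mul_le_mul het hlt (by norm_num) (Real.exp_pos _).le
    have e4 : 2 * (1 + ε) ≤ t := by
      have : 2 * (1 + ε) ≤ A := (le_max_left _ _).trans (le_max_right _ _)
      linarith
    have e5 : 4 * ((1 + ε) * t) ≤ 2 * t * t := by nlinarith
    nlinarith
  refine ⟨by linarith, hlt, hV4, hV3, ?_, ?_⟩
  · have : 2 / ε + 1 ≤ V0 ε t := by linarith
    have h5 : 2 / ε ≤ V0 ε t - 1 := by linarith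
    rw [div_le_iff₀ hε] at h5
    nlinarith
  · have h5 : C / Real.log (1 + ε / 2) ≤ V0 ε t - 1 := by linarith
    rw [div_le_iff₀ hl] at h5
    rw [div_le_iff₀ (by linarith)]
    linarith

theorem sieve1 (ε : ℝ) (hε : 0 < ε) (hε1 : ε ≤ 1 / 10) : ∃ t₀ : ℝ, ∀ t : ℝ, t₀ ≤ t →
    ∀ M U : ℕ, Real.exp t - 1 ≤ Real.log M →
    Real.exp t ≤ Real.log U → Real.log U ≤ Real.exp t + 2 * t → M ≤ U → ∀ W : ℝ, (M : ℝ) ≤ W →
    ∃ b : ℕ → ℕ, (∀ p : ℕ, p.Prime → b p < p) ∧
      (((Icc 1 U).filter (fun k => ∀ p : ℕ, p.Prime → p ≤ M → ¬ k ≡ b p [MOD p])).card : ℝ) * MP W ≤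
        (2 + 6 * ε) * U * t ^ 2 * Real.log W / (Real.exp (2 * t) * Real.log t) := by
  obtain ⟨C, hC0, hC⟩ := mp_ratio
  obtain ⟨t₁, h1⟩ := rough_count ε hε (by linarith)
  obtain ⟨t₂, h2⟩ := ev_sieve ε C hε hC0
  refine ⟨max t₁ t₂, fun t ht M U hM hU hU2 hMU W hW => ?_⟩
  obtain ⟨g1, g2, g3, g4, g5, g6⟩ := h2 t ((le_max_right _ _).trans ht)
  have ht0 : 0 < t := by linarith
  have hlt0 : 0 < Real.log t := by linarith
  have het0 : 0 < Real.exp t := Real.exp_pos t
  set V := V0 ε t with hV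
  set v : ℕ := ⌊Real.exp V⌋₊ with hv
  have hV0 : 0 < V := by linarith
  have hev : 5 ≤ Real.exp V := by
    have := Real.add_one_le_exp V
    linarith
  have hv2 : 2 ≤ v := by
    rw [hv, Nat.le_floor_iff (Real.exp_pos _).le]
    push_cast
    linarith
  have hvr : (v : ℝ) ≤ Real.exp V := Nat.floor_le (Real.exp_pos _).le
  have hv0 : (0 : ℝ) < v := by exact_mod_cast (by omega : 0 < v)
  have hlv : Real.log v ≤ V := by
    rw [← Real.log_exp V]
    exact Real.log_le_log hv0 hvr
  have hlv1 : V - 1 ≤ Real.log v := by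
    have e1 : Real.exp (V - 1) ≤ v := by
      have e2 : Real.exp V < v + 1 := Nat.lt_floor_add_one _
      have e3 : Real.exp (V - 1) * 2 ≤ Real.exp V := by
        have : Real.exp V = Real.exp (V - 1) * Real.exp 1 := by rw [← Real.exp_add]; ring_nf
        rw [this]
        apply mul_le_mul_of_nonneg_left _ (Real.exp_pos _).le
        have := Real.add_one_le_exp (1 : ℝ)
        linarith
      linarith
    rw [← Real.log_exp (V - 1)]
    exact Real.log_le_log (Real.exp_pos _) e1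
  have hlv0 : 0 < Real.log v := by linarith
  have hM0 : 0 < Real.log M := by
    have := Real.add_one_le_exp t
    linarith
  have hMr : (0 : ℝ) < M := by
    rcases Nat.eq_zero_or_pos M with h | h
    · rw [h] at hM0; simp at hM0
    · exact_mod_cast h
  have hvM : v ≤ M := by
    have : (v : ℝ) ≤ M := by
      refine hvr.trans ?_
      rw [← Real.log_le_log_iff (Real.exp_pos _) hMr, Real.log_exp]
      linarith
    exact_mod_cast this
  set R := (Icc 1 U).filter (fun k => ∀ p : ℕ, p.Prime → v < p → p ≤ M → ¬ p ∣ k) with hR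
  have hRc := h1 t ((le_max_left _ _).trans ht) v M U hv2 hlv hM hU hU2 hMU
  rw [← hR] at hRc
  set S := (Icc 1 v).filter Nat.Prime with hS
  obtain ⟨b, hb, hbc⟩ := greedy_all S (fun p hp => (mem_filter.1 hp).2) R
  refine ⟨fun p => if p ∈ S then b p else 0, ?_, ?_⟩
  · intro p hp
    by_cases hpS : p ∈ S
    · simp only [hpS, if_true]; exact hb p hpS
    · simp only [hpS, if_false]; exact hp.pos
  have hsub : (Icc 1 U).filter (fun k => ∀ p : ℕ, p.Prime → p ≤ M →
      ¬ k ≡ (if p ∈ S then b p else 0) [MOD p]) ⊆ R.filter (fun k => ∀ p ∈ S, ¬ k ≡ b p [MOD p]) := by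
    intro k hk
    rw [mem_filter] at hk
    rw [mem_filter, hR, mem_filter]
    refine ⟨⟨hk.1, fun p hp hvp hpM hpk => ?_⟩, fun p hpS => ?_⟩
    · have hpS : p ∉ S := by
        rw [hS, mem_filter, mem_Icc]
        omega
      have := hk.2 p hp hpM
      rw [if_neg hpS] at this
      exact this ((Nat.modEq_zero_iff_dvd).2 hpk)
    · have hpS' := hpS
      rw [hS, mem_filter, mem_Icc] at hpS'
      have := hk.2 p hpS'.2 (hpS'.1.2.trans hvM)
      rwa [if_pos hpS] at this
  have hprod0 : 0 ≤ ∏ p ∈ S, (1 - 1 / (p : ℝ)) :=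
    prod_nonneg fun p hp => (one_sub_inv_pos (mem_filter.1 hp).2).le
  have hMP0 : 0 < MP W := MP_pos W
  have hvW : (v : ℝ) ≤ W := by
    have : (v : ℝ) ≤ M := by exact_mod_cast hvM
    linarith
  have hlW : 0 < Real.log W := by
    have : Real.log v ≤ Real.log W := Real.log_le_log hv0 hvW
    linarith
  have hr := hC v W hv2 hvW
  have hexp : Real.exp (C / Real.log v) ≤ 1 + ε / 2 := by
    rw [← Real.exp_log (show (0 : ℝ) < 1 + ε / 2 by linarith)]
    apply Real.exp_le_exp.2
    refine le_trans ?_ g6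
    apply div_le_div_of_nonneg_left hC0 (by linarith) hlv1
  have hlog : Real.log W / Real.log v ≤ Real.log W * ((1 + ε / 2) / V) := by
    rw [div_eq_mul_inv]
    apply mul_le_mul_of_nonneg_left _ hlW.le
    rw [inv_eq_one_div, div_le_div_iff₀ hlv0 hV0]
    nlinarith
  have hRn : (0 : ℝ) ≤ R.card := Nat.cast_nonneg _
  have hUn : (0 : ℝ) ≤ U := Nat.cast_nonneg _
  calc _ ≤ ((R.filter (fun k => ∀ p ∈ S, ¬ k ≡ b p [MOD p])).card : ℝ) * MP W := by
        apply mul_le_mul_of_nonneg_right _ hMP0.le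
        exact_mod_cast card_le_card hsub
    _ ≤ (R.card * ∏ p ∈ S, (1 - 1 / (p : ℝ))) * MP W :=
        mul_le_mul_of_nonneg_right hbc hMP0.le
    _ = R.card * ((∏ p ∈ S, (1 - 1 / (p : ℝ))) * MP W) := by ring
    _ ≤ ((2 + ε) * U * t / Real.exp t) * (Real.log W / Real.log v * Real.exp (C / Real.log v)) :=
        mul_le_mul hRc hr (by positivity) (by positivity)
    _ ≤ ((2 + ε) * U * t / Real.exp t) * ((Real.log W * ((1 + ε / 2) / V)) * (1 + ε / 2)) := by
        apply mul_le_mul_of_nonneg_left _ (by positivity)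
        apply mul_le_mul hlog hexp (Real.exp_pos _).le (by positivity)
    _ = ((2 + ε) * (1 + ε) * (1 + ε / 2) * (1 + ε / 2)) *
          (U * t ^ 2 * Real.log W / (Real.exp (2 * t) * Real.log t)) := by
        rw [hV, V0, show Real.exp (2 * t) = Real.exp t * Real.exp t by rw [← Real.exp_add]; ring_nf]
        field_simp
    _ ≤ (2 + 6 * ε) * (U * t ^ 2 * Real.log W / (Real.exp (2 * t) * Real.log t)) := by
        apply mul_le_mul_of_nonneg_right _ (by positivity)
        nlinarith [mul_pos hε hε, mul_pos (mul_pos hε hε) hε]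
    _ = _ := by ring

end Pool.Agent.H93.CG
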