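import Pool.Agent.H93.CG.Run2
import Pool.Agent.H93.CG.Sieve1

set_option autoImplicit false
set_option linter.unusedSectionVars false

/-! # The record gaps with the constant `1 / 4` (helper93) -/

namespace Pool.Agent.H93.CG

open Finset Filter Pool.Agent.Y831.RC Pool.Agent.H256R2.SC

open scoped Classical

theorem WW_MP (w : ℝ) : WW w * Pool.Agent.K4H10.EX.MP w = 1 := by
  unfold WW Pool.Agent.K4H10.EX.MP
  rw [← Finset.prod_mul_distrib]
  apply Finset.prod_eq_one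
  intro p hp
  have h2 : (2:ℝ) ≤ p := by exact_mod_cast (mem_filter.1 hp).2.two_le
  have h3 : (p:ℝ)⁻¹ ≤ 1 / 2 := by
    rw [inv_eq_one_div]
    exact one_div_le_one_div_of_le (by norm_num) h2
  rw [one_div]
  exact mul_inv_cancel₀ (by linarith)

theorem ev_ll (ε : ℝ) (hε : 0 < ε) : ∃ X₀ : ℝ, ∀ X : ℝ, X₀ ≤ X →
    (Real.log (Real.log X)) ^ 4 ≤ (Real.log X) ^ (1 / 2 : ℝ) ∧
    (Real.log (Real.log X)) ^ 2 ≤ (Real.log X) ^ ε ∧
    4 * Real.log (Real.log (Real.log X)) ≤ ε * Real.log (Real.log X) := by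
  have t1 := Real.tendsto_log_atTop
  have h1 : ∀ᶠ L : ℝ in atTop, (Real.log L) ^ 4 ≤ L ^ (1 / 2 : ℝ) := by
    have := (isLittleO_log_rpow_rpow_atTop 4 (show (0:ℝ) < 1 / 2 by norm_num)).def one_pos
    filter_upwards [this, eventually_ge_atTop (1:ℝ)] with L h h1
    rw [one_mul, Real.norm_eq_abs, Real.norm_eq_abs,
      abs_of_nonneg (Real.rpow_nonneg (Real.log_nonneg h1) _),
      abs_of_nonneg (Real.rpow_nonneg (by linarith) _)] at h
    have h5 : Real.log L ^ (4 : ℝ) = Real.log L ^ 4 := by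
      rw [← Real.rpow_natCast]; norm_num
    rwa [h5] at h
  have h2 : ∀ᶠ L : ℝ in atTop, (Real.log L) ^ 2 ≤ L ^ ε := by
    have := (isLittleO_log_rpow_rpow_atTop 2 hε).def one_pos
    filter_upwards [this, eventually_ge_atTop (1:ℝ)] with L h h1
    rw [one_mul, Real.norm_eq_abs, Real.norm_eq_abs,
      abs_of_nonneg (Real.rpow_nonneg (Real.log_nonneg h1) _),
      abs_of_nonneg (Real.rpow_nonneg (by linarith) _)] at h
    have h5 : Real.log L ^ (2 : ℝ) = Real.log L ^ 2 := by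
      rw [← Real.rpow_natCast]; norm_num
    rwa [h5] at h
  have h3 : ∀ᶠ l : ℝ in atTop, 4 * Real.log l ≤ ε * l := by
    have e2 := Real.isLittleO_log_id_atTop.def (show (0:ℝ) < ε / 4 by positivity)
    filter_upwards [e2, eventually_ge_atTop (1:ℝ)] with t ht ht1
    rw [Real.norm_eq_abs, abs_of_nonneg (Real.log_nonneg ht1), Real.norm_eq_abs] at ht
    simp only [id] at ht
    rw [abs_of_nonneg (by linarith)] at ht
    linarith
  obtain ⟨X₀, hX⟩ := eventually_atTop.1 ((t1.eventually h1).and ((t1.eventually h2).and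
    ((t1.comp t1).eventually h3)))
  exact ⟨X₀, fun X hXX => hX X hXX⟩

/-- all the numerical facts -/
theorem ev_all2 (ε c t₀ : ℝ) (hε : 0 < ε) (hε1 : ε ≤ 1 / 16) (hc : 0 < c)
    (hce : (2 + 6 * ε) * (1 + ε) * c ≤ (1 / 2 - ε) * (1 - ε) ^ 4) :
    ∃ X₀ : ℝ, ∀ X : ℝ, X₀ ≤ X →
    ∀ Y t v : ℝ, Y = ε / 64 * Real.log X → t = Real.log (Real.log Y) →
      v = (Real.log (Real.log X)) ^ 4 →
    ∀ M U : ℕ, M = ⌊Y⌋₊ → U = ⌊c * ff X⌋₊ →
      t₀ ≤ t ∧ Real.exp t - 1 ≤ Real.log M ∧ Real.exp t ≤ Real.log U ∧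
      Real.log U ≤ Real.exp t + 2 * t ∧ M ≤ U ∧ (M : ℝ) ≤ (Real.log X) ^ (1 + ε) ∧
      (U : ℝ) ≤ (Real.log X) ^ (1 + ε) ∧
      (2 + 6 * ε) * U * t ^ 2 * Real.log ((Real.log X) ^ (1 + ε)) / (Real.exp (2 * t) * Real.log t) ≤
        (1 / 2 - ε) * (1 - Real.log v / Real.log (Real.log X)) *
          (Real.log X * Real.log (Real.log X)) ∧
      960 * Real.log (Real.log X) ≤ ε * v ∧ v ≤ (Real.log X) ^ (1 - (1 / 2 : ℝ)) ∧
      (M : ℝ) ≤ X ^ (ε / 8) ∧
      (∀ H : ℝ, X ^ (1 - ε / 32) ≤ H → X ^ (1 - ε / 8) ≤ H / primorial M - 1 ∧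
        H * X ^ (-ε) ≤ (H / primorial M - 1) *
          Real.exp (-(48 * (Real.log X / v * (Real.log (Real.log X)) ^ 2)))) ∧
      X ^ (1 - ε / 32) ≤ X / 4 ∧ X ^ (ε / 8) ≤ X / 4 ∧ 8 ≤ X ∧ 0 ≤ ff X := by
  set K : ℝ := Real.log (64 / ε) with hK
  have hK0 : 0 ≤ K := by
    apply Real.log_nonneg
    rw [le_div_iff₀ hε]; linarith
  set B : ℝ := 1000 + |t₀| + K / ε + 384 / ε + 960 / ε + 2 / c + 256 * c / ε with hB
  have hKε : 0 ≤ K / ε := by positivity
  have h4ε : 0 ≤ 384 / ε := by positivity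
  have h5ε : 0 ≤ 960 / ε := by positivity
  have h2c : 0 ≤ 2 / c := by positivity
  have h4c : 0 ≤ 256 * c / ε := by positivity
  have ht₀a : 0 ≤ |t₀| := abs_nonneg _
  have ht₀b : t₀ ≤ |t₀| := le_abs_self _
  obtain ⟨X₁, hX₁⟩ := LG.ev_log B
  obtain ⟨X₂, hX₂⟩ := ev_ll ε hε
  refine ⟨max X₁ X₂, fun X hX Y t v hY ht hv M U hM hU => ?_⟩
  obtain ⟨hX1, m1, m2, m3, m4⟩ := hX₁ X ((le_max_left _ _).trans hX)
  obtain ⟨w1, w2, w3⟩ := hX₂ X ((le_max_right _ _).trans hX)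
  clear hX₁ hX₂ hX
  have hff : ff X = Real.log X * (Real.log (Real.log X)) ^ 2 *
    Real.log (Real.log (Real.log (Real.log X))) / (Real.log (Real.log (Real.log X))) ^ 2 := rfl
  have hXpos : 0 < X := by linarith
  have hroot : ∀ a : ℝ, X ^ a = Real.exp (Real.log X * a) := fun a => Real.rpow_def_of_pos hXpos a
  have hXexp : X = Real.exp (Real.log X) := (Real.exp_log hXpos).symm
  have hlX : Real.log X ≤ X - 1 := Real.log_le_sub_one_of_pos hXpos
  simp only [hroot]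
  set l1 := Real.log X with hl1
  set l2 := Real.log l1 with hl2
  set l3 := Real.log l2 with hl3
  set l4 := Real.log l3 with hl4
  have b1 : 1000 ≤ B := by rw [hB]; linarith
  have b2 : |t₀| + 100 ≤ B := by rw [hB]; linarith
  have b4 : K / ε ≤ B := by rw [hB]; linarith
  have b5 : 384 / ε ≤ B := by rw [hB]; linarith
  have b5' : 960 / ε ≤ B := by rw [hB]; linarith
  have b6 : 2 / c ≤ B := by rw [hB]; linarith
  have b7 : 256 * c / ε ≤ B := by rw [hB]; linarith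
  have p1 : 0 < l1 := by linarith
  have p2 : 0 < l2 := by linarith
  have p3 : 0 < l3 := by linarith
  have p4 : 0 < l4 := by linarith
  have l21 : l2 ≤ l1 := by have := Real.log_le_sub_one_of_pos p1; linarith
  have l32 : l3 ≤ l2 := by have := Real.log_le_sub_one_of_pos p2; linarith
  have l43 : l4 ≤ l3 := by have := Real.log_le_sub_one_of_pos p3; linarith
  -- multiples
  have k1 : K ≤ ε * l2 := by
    rw [mul_comm]; exact (div_le_iff₀ hε).1 (b4.trans m2)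
  have k2 : 384 ≤ ε * l1 := by
    rw [mul_comm]; exact (div_le_iff₀ hε).1 (b5.trans m1)
  have k3 : 384 ≤ ε * l4 := by
    rw [mul_comm]; exact (div_le_iff₀ hε).1 (b5.trans m4)
  have k3' : 960 ≤ ε * l2 := by
    rw [mul_comm]; exact (div_le_iff₀ hε).1 (b5'.trans m2)
  have k4 : 2 ≤ c * l4 := by
    rw [mul_comm]; exact (div_le_iff₀ hc).1 (b6.trans m4)
  have k5 : 256 * c ≤ ε * l3 := by
    rw [mul_comm ε]; exact (div_le_iff₀ hε).1 (b7.trans m3)
  -- `Y`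
  have hYpos : 0 < Y := by rw [hY]; positivity
  have hY4 : 4 ≤ Y := by rw [hY]; linarith
  have hYl1 : Y ≤ l1 := by
    rw [hY]
    calc ε / 64 * l1 ≤ 1 * l1 := by gcongr; linarith
      _ = l1 := one_mul _
  have hlogY : Real.log Y = l2 - K := by
    rw [hY, Real.log_mul (by positivity) p1.ne', hK, Real.log_div hε.ne' (by norm_num),
      Real.log_div (by norm_num) hε.ne']
    ring
  have hlogY1 : (1 - ε) * l2 ≤ Real.log Y := by rw [hlogY]; linarith
  have hlogY2 : Real.log Y ≤ l2 := by rw [hlogY]; linarith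
  have hlogY0 : 0 < Real.log Y := lt_of_lt_of_le (mul_pos (by linarith) p2) hlogY1
  have het : Real.exp t = Real.log Y := by rw [ht, Real.exp_log hlogY0]
  have he1 : (2:ℝ) ≤ Real.exp 1 := by
    have := Real.add_one_le_exp (1:ℝ); linarith
  have e0 : (4 : ℝ) ≤ Real.exp 2 := by
    calc (4 : ℝ) = 2 * 2 := by norm_num
      _ ≤ Real.exp 1 * Real.exp 1 := by gcongr
      _ = Real.exp 2 := by rw [← Real.exp_add]; norm_num
  have hdiv : ∀ a b : ℝ, 0 < a → a / 2 ≤ b → Real.log a - 1 ≤ Real.log b := by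
    intro a b ha hab
    have h1 : Real.log (a / 2) ≤ Real.log b := Real.log_le_log (by positivity) hab
    rw [Real.log_div ha.ne' (by norm_num)] at h1
    have h2 : Real.log 2 ≤ 1 := by
      have := Real.log_le_sub_one_of_pos (show (0:ℝ) < 2 by norm_num)
      linarith
    linarith
  have ht1 : l3 - 1 ≤ t := by
    rw [ht]
    apply hdiv l2 _ p2
    refine le_trans ?_ hlogY1
    calc l2 / 2 = (1 / 2) * l2 := by ring
      _ ≤ (1 - ε) * l2 := by gcongr; linarith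
  have ht2 : t ≤ l3 := by
    rw [ht]; exact Real.log_le_log hlogY0 hlogY2
  have ht0 : 0 < t := by linarith
  have hlt1 : (1 - ε) * l4 ≤ Real.log t := by
    have h1 := hdiv l3 t p3 (by linarith)
    have h2 : (1 - ε) * l4 = l4 - ε * l4 := by ring
    rw [h2]
    linarith
  have hlt0 : 0 < Real.log t := lt_of_lt_of_le (mul_pos (by linarith) p4) hlt1
  -- `F`
  set F : ℝ := c * ff X with hF
  have hff0 : 0 ≤ ff X := by rw [hff]; positivity
  have hF0 : 0 ≤ F := by positivity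
  have hUF : (U : ℝ) ≤ F := by rw [hU]; exact Nat.floor_le hF0
  have hFU : F - 1 ≤ U := by
    have := Nat.lt_floor_add_one F
    rw [hU]; linarith
  have hFlow : 2 * l1 ≤ F := by
    have e1 : l1 * l4 ≤ ff X := by
      rw [hff, le_div_iff₀ (by positivity)]
      have : l3 ^ 2 ≤ l2 ^ 2 := by gcongr
      calc l1 * l4 * l3 ^ 2 ≤ l1 * l4 * l2 ^ 2 := by gcongr
        _ = l1 * l2 ^ 2 * l4 := by ring
    calc 2 * l1 ≤ (c * l4) * l1 := by gcongr
      _ = c * (l1 * l4) := by ring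
      _ ≤ c * ff X := by gcongr
  have hUl1 : l1 ≤ U := by linarith
  have hYU : Y ≤ U := by linarith
  have hUpos : (0:ℝ) < U := by linarith
  have hFup : F ≤ Y * (Real.log Y) ^ 2 := by
    have e1 : ((1 - ε) * l2) ^ 2 ≤ (Real.log Y) ^ 2 := by
      have : 0 ≤ (1 - ε) * l2 := mul_nonneg (by linarith) p2.le
      gcongr
    have e2 : c * l4 / l3 ^ 2 ≤ ε / 64 * (1 - ε) ^ 2 := by
      rw [div_le_iff₀ (by positivity)]
      have e3 : (1:ℝ) / 4 ≤ (1 - ε) ^ 2 := by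
        calc (1:ℝ) / 4 = (1 / 2) ^ 2 := by norm_num
          _ ≤ (1 - ε) ^ 2 := by gcongr; linarith
      calc c * l4 ≤ c * l3 := by gcongr
        _ ≤ (ε * l3 / 256) * l3 := by gcongr; linarith
        _ = ε / 64 * (1 / 4) * l3 ^ 2 := by ring
        _ ≤ ε / 64 * (1 - ε) ^ 2 * l3 ^ 2 := by gcongr
    calc F = l1 * l2 ^ 2 * (c * l4 / l3 ^ 2) := by rw [hF, hff]; ring
      _ ≤ l1 * l2 ^ 2 * (ε / 64 * (1 - ε) ^ 2) := by gcongr
      _ = Y * ((1 - ε) * l2) ^ 2 := by rw [hY]; ring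
      _ ≤ Y * (Real.log Y) ^ 2 := by gcongr
  have hMY : (M : ℝ) ≤ Y := by rw [hM]; exact Nat.floor_le hYpos.le
  have hMY1 : Y - 1 ≤ M := by
    have := Nat.lt_floor_add_one Y
    rw [hM]; linarith
  have hpow : l1 ^ (1 + ε) = l1 * l1 ^ ε := by
    rw [Real.rpow_add p1, Real.rpow_one]
  have hl1ε : 1 ≤ l1 ^ ε := Real.one_le_rpow (by linarith) hε.le
  have hl1b : l1 ≤ l1 ^ (1 + ε) := by
    rw [hpow]
    calc l1 = l1 * 1 := (mul_one _).symm
      _ ≤ l1 * l1 ^ ε := by gcongr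
  have hUb : (U : ℝ) ≤ l1 ^ (1 + ε) := by
    rw [hpow]
    calc (U : ℝ) ≤ Y * (Real.log Y) ^ 2 := hUF.trans hFup
      _ ≤ l1 * l2 ^ 2 := by gcongr
      _ ≤ l1 * l1 ^ ε := by gcongr
  have hv0 : 0 < v := by rw [hv]; positivity
  have hlogv : Real.log v = 4 * l3 := by rw [hv, Real.log_pow, hl3]; norm_num
  have hP1 : (1 : ℝ) ≤ primorial M := by exact_mod_cast primorial_pos M
  have hP : (primorial M : ℝ) ≤ Real.exp (l1 * (ε / 32)) := by
    have h1 : (primorial M : ℝ) ≤ 4 ^ M := by exact_mod_cast primorial_le_four_pow _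
    refine h1.trans ?_
    calc (4 : ℝ) ^ M ≤ (Real.exp 2) ^ M := by gcongr
      _ = Real.exp (M * 2) := by rw [← Real.exp_nat_mul]
      _ ≤ Real.exp (l1 * (ε / 32)) := by
        apply Real.exp_le_exp.2
        rw [hY] at hMY
        linarith
  refine ⟨by linarith, ?_, ?_, ?_, ?_, by linarith, hUb, ?_, ?_, ?_, ?_, ?_, ?_, ?_, by linarith, hff0⟩
  · rw [het]
    exact hdiv Y M hYpos (by linarith)
  · rw [het]
    exact Real.log_le_log hYpos hYU
  · have e1 : Real.log U ≤ Real.log (Y * (Real.log Y) ^ 2) :=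
      Real.log_le_log hUpos (hUF.trans hFup)
    rw [Real.log_mul hYpos.ne' (by positivity), Real.log_pow, ← ht] at e1
    push_cast at e1
    rw [het]
    exact e1
  · have : (M : ℝ) ≤ U := by linarith
    exact_mod_cast this
  · have e1 : Real.exp (2 * t) = (Real.log Y) ^ 2 := by
      rw [← het, sq, ← Real.exp_add]; congr 1; ring
    have e2 : Real.log (l1 ^ (1 + ε)) = (1 + ε) * l2 := by rw [Real.log_rpow p1]
    rw [e1, e2]
    have e3 : ((1 - ε) * l2) ^ 2 ≤ (Real.log Y) ^ 2 := by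
      have : 0 ≤ (1 - ε) * l2 := mul_nonneg (by linarith) p2.le
      gcongr
    have hε' : 0 < 1 - ε := by linarith
    have e4 : 1 - ε ≤ 1 - Real.log v / l2 := by
      have : Real.log v / l2 ≤ ε := by
        rw [hlogv, div_le_iff₀ p2]
        exact w3
      linarith
    have hhalf : 0 ≤ 1 / 2 - ε := by linarith
    calc (2 + 6 * ε) * U * t ^ 2 * ((1 + ε) * l2) / ((Real.log Y) ^ 2 * Real.log t)
        ≤ (2 + 6 * ε) * F * l3 ^ 2 * ((1 + ε) * l2) /
          (((1 - ε) * l2) ^ 2 * ((1 - ε) * l4)) := by gcongr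
      _ = ((2 + 6 * ε) * (1 + ε) * c) * (l1 * l2) / (1 - ε) ^ 3 := by
          rw [hF, hff]
          field_simp
      _ ≤ ((1 / 2 - ε) * (1 - ε) ^ 4) * (l1 * l2) / (1 - ε) ^ 3 := by
          gcongr
      _ = (1 / 2 - ε) * (1 - ε) * (l1 * l2) := by
          field_simp
      _ ≤ (1 / 2 - ε) * (1 - Real.log v / l2) * (l1 * l2) := by gcongr
  · have e1 : l2 ≤ l2 ^ 3 := by
      calc l2 = l2 ^ 1 := (pow_one _).symm
        _ ≤ l2 ^ 3 := by gcongr <;> linarith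
    calc 960 * l2 ≤ (ε * l2) * l2 := by gcongr
      _ ≤ (ε * l2) * l2 ^ 3 := by gcongr
      _ = ε * v := by rw [hv]; ring
  · rw [hv]
    norm_num
    norm_num at w1
    exact w1
  · have h1 := Real.add_one_le_exp (l1 * (ε / 8))
    have h2 : Y ≤ l1 * (ε / 8) := by rw [hY]; nlinarith only [p1, hε]
    linarith
  · intro H hH
    have hH0 : 0 < H := lt_of_lt_of_le (Real.exp_pos _) hH
    have hPp : (0:ℝ) < primorial M := by linarith
    have h1 : Real.exp (l1 * (1 - ε / 16)) ≤ H / primorial M := by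
      rw [le_div_iff₀ hPp]
      calc Real.exp (l1 * (1 - ε / 16)) * primorial M
          ≤ Real.exp (l1 * (1 - ε / 16)) * Real.exp (l1 * (ε / 32)) := by gcongr
        _ = Real.exp (l1 * (1 - ε / 32)) := by rw [← Real.exp_add]; congr 1; ring
        _ ≤ H := hH
    have h2 : (2:ℝ) ≤ Real.exp (l1 * (ε / 16)) := by
      refine he1.trans (Real.exp_le_exp.2 ?_)
      linarith
    have h3 : 2 * Real.exp (l1 * (1 - ε / 8)) ≤ Real.exp (l1 * (1 - ε / 16)) := by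
      calc 2 * Real.exp (l1 * (1 - ε / 8))
          ≤ Real.exp (l1 * (ε / 16)) * Real.exp (l1 * (1 - ε / 8)) := by gcongr
        _ = Real.exp (l1 * (1 - ε / 16)) := by rw [← Real.exp_add]; congr 1; ring
    have h4 : 1 ≤ Real.exp (l1 * (1 - ε / 8)) := Real.one_le_exp (by
      apply mul_nonneg p1.le; linarith)
    refine ⟨by linarith, ?_⟩
    have h5 : H / primorial M / 2 ≤ H / primorial M - 1 := by linarith
    have h6 : H / Real.exp (l1 * (ε / 32)) / 2 ≤ H / primorial M / 2 := by gcongr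
    have h7 : Real.exp (-(l1 * (ε / 8))) ≤ Real.exp (-(48 * (l1 / v * l2 ^ 2))) := by
      apply Real.exp_le_exp.2
      have e1 : 48 * (l1 / v * l2 ^ 2) ≤ l1 * (ε / 8) := by
        have e2 : l1 / v * l2 ^ 2 = l1 / l2 ^ 2 := by
          rw [hv]
          field_simp
        rw [e2]
        have e3 : 48 * (1 / l2 ^ 2) ≤ ε / 8 := by
          rw [mul_one_div, div_le_div_iff₀ (by positivity) (by norm_num)]
          calc (48:ℝ) * 8 ≤ 960 * 1 := by norm_num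
            _ ≤ (ε * l2) * l2 := by gcongr; linarith
            _ = ε * l2 ^ 2 := by ring
        calc 48 * (l1 / l2 ^ 2) = l1 * (48 * (1 / l2 ^ 2)) := by ring
          _ ≤ l1 * (ε / 8) := by gcongr
      linarith
    have h8 : Real.exp (-(l1 * ε)) ≤
        1 / Real.exp (l1 * (ε / 32)) / 2 * Real.exp (-(l1 * (ε / 8))) := by
      rw [div_div, div_mul_eq_mul_div, one_mul, le_div_iff₀ (by positivity)]
      calc Real.exp (-(l1 * ε)) * (Real.exp (l1 * (ε / 32)) * 2)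
          ≤ Real.exp (-(l1 * ε)) * (Real.exp (l1 * (ε / 32)) * Real.exp (l1 * (ε / 16))) := by
            gcongr
        _ = Real.exp (-(l1 * ε) + (l1 * (ε / 32) + l1 * (ε / 16))) := by
            rw [← Real.exp_add, ← Real.exp_add]
        _ ≤ Real.exp (-(l1 * (ε / 8))) := by
            apply Real.exp_le_exp.2
            have : 0 < l1 * ε := by positivity
            linarith
    calc H * Real.exp (l1 * -ε) = H * Real.exp (-(l1 * ε)) := by
          congr 2; ring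
      _ ≤ H * (1 / Real.exp (l1 * (ε / 32)) / 2 * Real.exp (-(l1 * (ε / 8)))) := by gcongr
      _ = (H / Real.exp (l1 * (ε / 32)) / 2) * Real.exp (-(l1 * (ε / 8))) := by ring
      _ ≤ (H / primorial M - 1) * Real.exp (-(48 * (l1 / v * l2 ^ 2))) := by
          exact mul_le_mul (h6.trans h5) h7 (Real.exp_pos _).le (by linarith)
  · rw [le_div_iff₀ (by norm_num)]
    calc Real.exp (l1 * (1 - ε / 32)) * 4 ≤ Real.exp (l1 * (1 - ε / 32)) * Real.exp 2 := by gcongr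
      _ = Real.exp (l1 * (1 - ε / 32) + 2) := by rw [← Real.exp_add]
      _ ≤ Real.exp l1 := by
          apply Real.exp_le_exp.2
          linarith
      _ = X := hXexp.symm
  · rw [le_div_iff₀ (by norm_num)]
    have h9 : ε * l1 ≤ 1 / 16 * l1 := by gcongr
    calc Real.exp (l1 * (ε / 8)) * 4 ≤ Real.exp (l1 * (ε / 8)) * Real.exp 2 := by gcongr
      _ = Real.exp (l1 * (ε / 8) + 2) := by rw [← Real.exp_add]
      _ ≤ Real.exp l1 := by
          apply Real.exp_le_exp.2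
          linarith
      _ = X := hXexp.symm

/-- **Runs of integers with small prime factors, with the constant `1 / 4`, and the record gaps
between primes.** -/
theorem record_runs (δ : ℝ) (hδ : 0 < δ) : ∃ η : ℝ, 0 < η ∧ ∃ X₀ : ℝ, ∀ X : ℝ, X₀ ≤ X →
    (∀ (Z : ℤ) (H : ℝ), X ^ (1 - η) ≤ H →
      H * X ^ (-δ) ≤ (((Ioc Z ⌊Z + H⌋).filter (fun x : ℤ =>
        ∀ k : ℕ, 1 ≤ k → (k : ℝ) ≤ (1 / 4 - δ) * ff X →
          ∃ p : ℕ, p.Prime ∧ (p : ℝ) ≤ X ^ δ ∧ (p : ℤ) ∣ x + k)).card : ℝ)) ∧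
    ∃ m : ℕ, (Nat.nth Nat.Prime (m + 1) : ℝ) ≤ X ∧
      (1 / 4 - δ) * ff X ≤ (Nat.nth Nat.Prime (m + 1) : ℝ) - Nat.nth Nat.Prime m := by
  set d : ℝ := min δ (1 / 16) with hd
  have hd0 : 0 < d := lt_min hδ (by norm_num)
  have hd1 : d ≤ 1 / 16 := min_le_right _ _
  have hdδ : d ≤ δ := min_le_left _ _
  set ε : ℝ := d / 4 with hε
  have hε0 : 0 < ε := by positivity
  have hε1 : ε ≤ 1 / 64 := by rw [hε]; linarith
  have hεδ : ε ≤ δ := by rw [hε]; linarith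
  set c : ℝ := 1 / 4 - d with hc
  have hc0 : 0 < c := by rw [hc]; linarith
  have hcδ : 1 / 4 - δ ≤ c := by rw [hc]; linarith
  have hce : (2 + 6 * ε) * (1 + ε) * c ≤ (1 / 2 - ε) * (1 - ε) ^ 4 := by
    have hdε : d = 4 * ε := by rw [hε]; ring
    have h1 : 1 - 4 * ε ≤ (1 - ε) ^ 4 := by
      have := one_add_mul_le_pow (show (-2:ℝ) ≤ -ε by linarith) 4
      norm_num at this
      calc 1 - 4 * ε ≤ (1 + -ε) ^ 4 := by linarith
        _ = (1 - ε) ^ 4 := by ring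
    have h2 : 0 ≤ 1 / 2 - ε := by linarith
    have h3 : 0 ≤ ε ^ 3 := by positivity
    calc (2 + 6 * ε) * (1 + ε) * c = (2 + 6 * ε) * (1 + ε) * (1 / 4 - 4 * ε) := by rw [hc, hdε]
      _ ≤ (1 / 2 - ε) * (1 - 4 * ε) := by nlinarith only [hε0, h3, sq_nonneg ε]
      _ ≤ _ := mul_le_mul_of_nonneg_left h1 h2
  obtain ⟨X₁, hcov⟩ := covv (1 + ε) (by linarith) (by linarith) ε (1 / 2) hε0 (by linarith)
    (by norm_num)
  obtain ⟨t₀, hs⟩ := sieve1 ε hε0 (by linarith)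
  obtain ⟨X₂, hX₂⟩ := ev_all2 ε c t₀ hε0 (by linarith) hc0 hce
  refine ⟨ε / 32, by positivity, max (max X₁ X₂) 8, fun X hX => ?_⟩
  have hXa : X₁ ≤ X := ((le_max_left _ _).trans (le_max_left _ _)).trans hX
  have hXb : X₂ ≤ X := ((le_max_right _ _).trans (le_max_left _ _)).trans hX
  obtain ⟨f1, f2, f3, f4, f5, f6, f7, f8, f9, f10, f11, f12, f13, f14, f15, f16⟩ :=
    hX₂ X hXb _ _ _ rfl rfl rfl _ _ rfl rfl
  obtain ⟨b, hb, hN⟩ := hs _ f1 _ _ f2 f3 f4 f5 _ f6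
  have hMP := WW_MP ((Real.log X) ^ (1 + ε))
  have hWW : 0 < WW ((Real.log X) ^ (1 + ε)) := WW_pos _
  have hN2 := hN.trans f8
  have hN3 := mul_le_mul_of_nonneg_right hN2 hWW.le
  rw [mul_assoc, mul_comm (Pool.Agent.K4H10.EX.MP _), hMP, mul_one, mul_assoc] at hN3
  have hmain : ∀ (Z : ℤ) (H : ℝ), X ^ (1 - ε / 32) ≤ H →
      H * X ^ (-ε) ≤ (((Ioc Z ⌊Z + H⌋).filter (fun x : ℤ =>
      ∀ k : ℕ, 1 ≤ k → k ≤ ⌊c * ff X⌋₊ → ∃ p : ℕ, p.Prime ∧ (p : ℝ) ≤ X ^ (ε / 8) ∧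
        (p : ℤ) ∣ x + k)).card : ℝ) := fun Z H hH =>
    (f12 H hH).2.trans (runs_of (hcov X hXa _ f9 f10) hb hN3 f6 f7 f11 Z H (f12 H hH).1)
  have hX1 : 1 ≤ X := by linarith
  refine ⟨fun Z H hH => ?_, ?_⟩
  · have hH0 : 0 ≤ H := le_trans (Real.rpow_nonneg (by linarith) _) hH
    have h1 : H * X ^ (-δ) ≤ H * X ^ (-ε) :=
      mul_le_mul_of_nonneg_left (Real.rpow_le_rpow_of_exponent_le hX1 (by linarith)) hH0
    refine h1.trans ((hmain Z H hH).trans ?_)
    have h2 : X ^ (ε / 8) ≤ X ^ δ := Real.rpow_le_rpow_of_exponent_le hX1 (by linarith)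
    have hsub : ((Ioc Z ⌊Z + H⌋).filter (fun x : ℤ =>
      ∀ k : ℕ, 1 ≤ k → k ≤ ⌊c * ff X⌋₊ → ∃ p : ℕ, p.Prime ∧ (p : ℝ) ≤ X ^ (ε / 8) ∧
        (p : ℤ) ∣ x + k)).card ≤ ((Ioc Z ⌊Z + H⌋).filter (fun x : ℤ =>
        ∀ k : ℕ, 1 ≤ k → (k : ℝ) ≤ (1 / 4 - δ) * ff X →
          ∃ p : ℕ, p.Prime ∧ (p : ℝ) ≤ X ^ δ ∧ (p : ℤ) ∣ x + k)).card := by
      apply Finset.card_le_card
      intro x hx
      rw [Finset.mem_filter] at hx ⊢
      refine ⟨hx.1, fun k hk1 hk2 => ?_⟩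
      obtain ⟨p, hp, hp1, hp2⟩ := hx.2 k hk1
        (Nat.le_floor (hk2.trans (mul_le_mul_of_nonneg_right hcδ f16)))
      exact ⟨p, hp, hp1.trans h2, hp2⟩
    exact_mod_cast hsub
  · have h3 := hmain ⌊X / 4⌋ (X / 4) f13
    have h4 : 0 < X / 4 * X ^ (-ε) := by
      have := Real.rpow_pos_of_pos (show 0 < X by linarith) (-ε)
      positivity
    have h5 : (0:ℝ) < _ := lt_of_lt_of_le h4 h3
    have h6 := Finset.card_pos.1 (Nat.cast_pos.1 h5)
    obtain ⟨x, hx⟩ := h6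
    rw [mem_filter, mem_Ioc] at hx
    obtain ⟨⟨hx1, hx2⟩, hx3⟩ := hx
    rw [Int.floor_lt] at hx1
    rw [Int.le_floor] at hx2
    have h7 : (x : ℝ) ≤ X / 2 := by
      have := Int.floor_le (X / 4)
      linarith
    obtain ⟨m, hm1, hm2⟩ := gap_of2 f15 f14 (F := c * ff X) (by positivity) hx1 h7 hx3
    exact ⟨m, hm1, le_trans (mul_le_mul_of_nonneg_right hcδ f16) hm2⟩

end Pool.Agent.H93.CG
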