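import Pool.Graph.R_seed8.Y831.RC4.CovF
import Pool.Graph.R_seed8.H256R2.SC.G1

set_option autoImplicit false
set_option linter.unusedSectionVars false

/-! # From the covering theorem with a count to runs of composite numbers (helper93) -/

namespace Pool.Agent.H93.CG

open Finset Filter Pool.Agent.Y831.RC Pool.Agent.H256R2.SC

open scoped Classical

/-- runs of `U` integers with small prime factors, with a count -/
theorem runs_of {δ κ₀ τ X w : ℝ} {M U : ℕ} {b : ℕ → ℕ} (hcov : CovK w X δ κ₀ τ)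
    (hb : ∀ p : ℕ, p.Prime → b p < p)
    (hN : (((Finset.Icc 1 U).filter (fun k => ∀ p : ℕ, p.Prime → p ≤ M →
        ¬ k ≡ b p [MOD p])).card : ℝ) ≤ κ₀ * (Real.log X * Real.log (Real.log X) * WW w))
    (hM : (M : ℝ) ≤ w) (hU : (U : ℝ) ≤ w) (hMδ : (M : ℝ) ≤ X ^ δ) (Z : ℤ) (H : ℝ)
    (hH : X ^ (1 - δ) ≤ H / primorial M - 1) :
    (H / primorial M - 1) * Real.exp (-τ) ≤ (((Ioc Z ⌊Z + H⌋).filter (fun x : ℤ =>
      ∀ k : ℕ, 1 ≤ k → k ≤ U → ∃ p : ℕ, p.Prime ∧ (p : ℝ) ≤ X ^ δ ∧ (p : ℤ) ∣ x + k)).card : ℝ) := by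
  set P : ℕ := primorial M with hPdef
  have hPpos : 0 < P := primorial_pos _
  have hPr : (0 : ℝ) < P := by exact_mod_cast hPpos
  obtain ⟨b0, hb0, hb0'⟩ := LG.exists_crt M (fun p => p - b p)
  have hdvdP : ∀ p : ℕ, p.Prime → p ≤ M → p ∣ P := fun p hp hpy =>
    (hp.dvd_primorial_iff).2 hpy
  have hndvdP : ∀ p : ℕ, p.Prime → w < p → ¬ p ∣ P := by
    intro p hp hpX h
    have h1 : p ≤ M := (hp.dvd_primorial_iff).1 h
    have h2 : (p : ℝ) ≤ M := by exact_mod_cast h1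
    linarith
  have hb0b : ∀ p : ℕ, p.Prime → p ≤ M → p ∣ b0 + b p := by
    intro p hp hpy
    have h1 := hb0' p hp hpy
    have h2 := hb p hp
    have h3 : b0 + b p ≡ (p - b p) + b p [MOD p] := h1.add_right _
    rw [Nat.sub_add_cancel h2.le] at h3
    exact (Nat.modEq_zero_iff_dvd).1 (h3.trans (by simp [Nat.ModEq]))
  -- inverses
  have hinv : ∀ p : ℕ, ∃ i : ℤ, p.Prime → ¬ p ∣ P → (p : ℤ) ∣ P * i - 1 := by
    intro p
    by_cases h : p.Prime ∧ ¬ p ∣ P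
    · obtain ⟨i, hi⟩ := LG.inv_exists h.1 h.2
      exact ⟨i, fun _ _ => hi⟩
    · exact ⟨0, fun h1 h2 => absurd ⟨h1, h2⟩ h⟩
  choose ip hip using hinv
  set S : Finset ℕ := (Finset.Icc 1 U).filter (fun k => ∀ p : ℕ, p.Prime → p ≤ M →
        ¬ k ≡ b p [MOD p]) with hSdef
  set A : ℤ := ⌊((Z : ℝ) - b0) / P⌋ with hA
  set B : ℤ := ⌊((Z : ℝ) + H - b0) / P⌋ with hB
  have hAB : H / P - 1 ≤ (B : ℝ) - A := by
    have e1 := Int.floor_le (((Z : ℝ) - b0) / P)
    have e2 := Int.lt_floor_add_one (((Z : ℝ) + H - b0) / P)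
    rw [← hA] at e1
    rw [← hB] at e2
    have e3 : ((Z : ℝ) + H - b0) / P = ((Z : ℝ) - b0) / P + H / P := by ring
    rw [e3] at e2
    linarith
  have hmain := hcov S (by simpa using hN)
    (fun p k => -((b0 : ℤ) + ((k : ℕ) : ℤ)) * ip p) (by
      intro p hp hp1 _ k l hkl hdvd
      have h1 := hip p hp (hndvdP p hp hp1)
      have h2 : (p : ℤ) ∣ ((l : ℕ) : ℤ) - ((k : ℕ) : ℤ) := by
        have h3 : (p : ℤ) ∣ (P : ℤ) * (-((b0 : ℤ) + ((k : ℕ) : ℤ)) * ip p -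
            -((b0 : ℤ) + ((l : ℕ) : ℤ)) * ip p) := hdvd.mul_left _
        have h4 : (p : ℤ) ∣ (((l : ℕ) : ℤ) - ((k : ℕ) : ℤ)) * ((P : ℤ) * ip p - 1) := h1.mul_left _
        have h5 := dvd_sub h3 h4
        have h6 : (P : ℤ) * (-((b0 : ℤ) + ((k : ℕ) : ℤ)) * ip p -
            -((b0 : ℤ) + ((l : ℕ) : ℤ)) * ip p) -
            (((l : ℕ) : ℤ) - ((k : ℕ) : ℤ)) * ((P : ℤ) * ip p - 1) =
            ((l : ℕ) : ℤ) - ((k : ℕ) : ℤ) := by ring
        rwa [h6] at h5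
      have hk := mem_Icc.1 (mem_filter.1 k.2).1
      have hl := mem_Icc.1 (mem_filter.1 l.2).1
      have hpL : U < p := by
        have : (U : ℝ) < p := lt_of_le_of_lt hU hp1
        exact_mod_cast this
      have h7 : ((l : ℕ) : ℤ) - ((k : ℕ) : ℤ) = 0 := by
        apply Int.eq_zero_of_abs_lt_dvd h2
        rw [abs_lt]
        constructor <;> omega
      apply hkl
      apply Subtype.ext
      omega) A B (hH.trans hAB)
  refine (mul_le_mul_of_nonneg_right hAB (Real.exp_pos _).le).trans (hmain.trans ?_)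
  have hcard : ((Ioc A B).filter (fun x : ℤ => ∀ k : S, ∃ p : ℕ, p.Prime ∧ w < p ∧
      (p : ℝ) ≤ X ^ δ ∧ (p : ℤ) ∣ x - -((b0 : ℤ) + ((k : ℕ) : ℤ)) * ip p)).card ≤
      ((Ioc Z ⌊Z + H⌋).filter (fun x : ℤ =>
      ∀ k : ℕ, 1 ≤ k → k ≤ U → ∃ p : ℕ, p.Prime ∧ (p : ℝ) ≤ X ^ δ ∧ (p : ℤ) ∣ x + k)).card := by
    apply Finset.card_le_card_of_injOn (fun m : ℤ => (b0 : ℤ) + P * m)
    · intro m hm
      rw [mem_coe, mem_filter, mem_Ioc] at hm
      obtain ⟨⟨hm1, hm2⟩, hm3⟩ := hm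
      rw [mem_coe, mem_filter, mem_Ioc]
      refine ⟨⟨?_, ?_⟩, ?_⟩
      · rw [hA, Int.floor_lt, div_lt_iff₀ hPr] at hm1
        have : (Z : ℝ) < ((b0 : ℤ) + P * m : ℤ) := by
          push_cast
          linarith
        exact_mod_cast this
      · rw [hB, Int.le_floor, le_div_iff₀ hPr] at hm2
        rw [Int.le_floor]
        push_cast
        linarith
      · intro k hk1 hkU
        by_cases hkS : k ∈ S
        · obtain ⟨p, hp, hp1, hp2, hp3⟩ := hm3 ⟨k, hkS⟩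
          refine ⟨p, hp, hp2, ?_⟩
          have h1 := hip p hp (hndvdP p hp hp1)
          have h3 := hp3.mul_left (P : ℤ)
          have h4 := h1.mul_left ((b0 : ℤ) + (k : ℤ))
          have h5 := dvd_sub h3 h4
          have h6 : (P : ℤ) * (m - -((b0 : ℤ) + (k : ℤ)) * ip p) -
              ((b0 : ℤ) + (k : ℤ)) * ((P : ℤ) * ip p - 1) = (b0 : ℤ) + P * m + (k : ℤ) := by
            ring
          rwa [← h6]
        · have hkU' : ¬ ∀ p : ℕ, p.Prime → p ≤ M → ¬ k ≡ b p [MOD p] := fun h =>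
            hkS (mem_filter.2 ⟨mem_Icc.2 ⟨hk1, hkU⟩, h⟩)
          push Not at hkU'
          obtain ⟨p, hp, hpy, hkp⟩ := hkU'
          have hpe : (p : ℝ) ≤ X ^ δ := by
            have : (p : ℝ) ≤ M := by exact_mod_cast hpy
            linarith
          refine ⟨p, hp, hpe, ?_⟩
          have h1 : b0 + k ≡ b0 + b p [MOD p] := hkp.add_left _
          have h2 : p ∣ b0 + k := (Nat.modEq_zero_iff_dvd).1
            (h1.trans ((Nat.modEq_zero_iff_dvd).2 (hb0b p hp hpy)))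
          have h2' : (p : ℤ) ∣ (b0 : ℤ) + k := by exact_mod_cast h2
          have h3 : (p : ℤ) ∣ (P : ℤ) * m := by
            have : (p : ℤ) ∣ (P : ℤ) := by exact_mod_cast hdvdP p hp hpy
            exact this.mul_right _
          have h4 : (b0 : ℤ) + P * m + k = ((b0 : ℤ) + k) + P * m := by ring
          rw [h4]
          exact dvd_add h2' h3
    · intro m _ m' _ h
      have h1 : (P : ℤ) * m = P * m' := by
        have : (b0 : ℤ) + P * m = b0 + P * m' := h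
        linarith
      have hP0 : (P : ℤ) ≠ 0 := by exact_mod_cast hPpos.ne'
      exact mul_left_cancel₀ hP0 h1
  exact_mod_cast hcard

/-- a run of integers with small prime factors gives a gap below `X` -/
theorem gap_of2 {X F y : ℝ} (hX : 8 ≤ X) (hy : y ≤ X / 4) (hF : 0 ≤ F) {x : ℤ}
    (hx1 : X / 4 < x) (hx2 : (x : ℝ) ≤ X / 2)
    (hrun : ∀ k : ℕ, 1 ≤ k → k ≤ ⌊F⌋₊ → ∃ p : ℕ, p.Prime ∧ (p : ℝ) ≤ y ∧ (p : ℤ) ∣ x + k) :
    ∃ m : ℕ, (Nat.nth Nat.Prime (m + 1) : ℝ) ≤ X ∧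
      F ≤ (Nat.nth Nat.Prime (m + 1) : ℝ) - Nat.nth Nat.Prime m := by
  have hx0 : 0 < x := by
    have : (0:ℝ) < x := by linarith
    exact_mod_cast this
  obtain ⟨x, rfl⟩ := Int.eq_ofNat_of_zero_le hx0.le
  rw [Int.cast_natCast] at hx1 hx2
  have hx2' : 2 ≤ x := by
    have : (2 : ℝ) < x := by linarith
    exact_mod_cast this.le
  have hrun' : ∀ k : ℕ, 1 ≤ k → k ≤ ⌊F⌋₊ → ¬ (x + k).Prime := by
    intro k hk1 hk2 hpr
    obtain ⟨p, hp, hpy, hpd⟩ := hrun k hk1 hk2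
    have h1 : p ∣ x + k := by exact_mod_cast hpd
    have h2 := (Nat.prime_dvd_prime_iff_eq hp hpr).1 h1
    have h3 : (p : ℝ) = x + k := by
      rw [h2]; push_cast; ring
    have h4 : (0 : ℝ) ≤ k := Nat.cast_nonneg _
    linarith
  set m1 : ℕ := Nat.count Nat.Prime (x + 1) with hm1
  have hm1pos : 0 < m1 := by
    rw [hm1]
    have := Nat.count_monotone Nat.Prime (show 3 ≤ x + 1 by omega)
    have h2 : Nat.count Nat.Prime 3 = 1 := by decide
    omega
  obtain ⟨m, hm⟩ : ∃ m, m1 = m + 1 := ⟨m1 - 1, by omega⟩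
  refine ⟨m, ?_, ?_⟩
  · set n : ℕ := ⌊X / 2⌋₊ with hn
    have hn0 : n ≠ 0 := by
      rw [hn]
      have : 1 ≤ ⌊X / 2⌋₊ := Nat.one_le_floor_iff _ |>.2 (by linarith)
      omega
    obtain ⟨r, hr, hr1, hr2⟩ := Nat.exists_prime_lt_and_le_two_mul n hn0
    have hxn : x ≤ n := Nat.le_floor hx2
    have h5 : Nat.nth Nat.Prime m1 ≤ r := by
      have h6 : m1 ≤ Nat.count Nat.Prime r := Nat.count_monotone _ (by omega)
      calc Nat.nth Nat.Prime m1 ≤ Nat.nth Nat.Prime (Nat.count Nat.Prime r) :=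
            Nat.nth_monotone Nat.infinite_setOfPred_prime h6
        _ = r := Nat.nth_count hr
    rw [hm] at h5
    have h7 : (r : ℝ) ≤ 2 * n := by exact_mod_cast hr2
    have h8 : (n : ℝ) ≤ X / 2 := by
      rw [hn]
      exact Nat.floor_le (by linarith)
    have h9 : (Nat.nth Nat.Prime (m + 1) : ℝ) ≤ r := by exact_mod_cast h5
    linarith
  · have h5 : Nat.nth Nat.Prime m < x + 1 := by
      apply Nat.nth_lt_of_lt_count
      omega
    have h6 : x + 1 ≤ Nat.nth Nat.Prime (m + 1) := by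
      rw [← hm]
      exact Nat.le_nth_count Nat.infinite_setOfPred_prime (x + 1)
    have h7 : (Nat.nth Nat.Prime (m + 1)).Prime := Nat.prime_nth_prime _
    obtain ⟨k, hk⟩ : ∃ k, Nat.nth Nat.Prime (m + 1) = x + k :=
      ⟨_, (Nat.add_sub_of_le (by omega)).symm⟩
    have hk1 : 1 ≤ k := by omega
    have h8 : F < k := by
      by_contra h
      push Not at h
      exact hrun' k hk1 (Nat.le_floor h) (hk ▸ h7)
    have h9 : (Nat.nth Nat.Prime (m + 1) : ℝ) = x + k := by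
      rw [hk]
      push_cast
      ring
    have h10 : (Nat.nth Nat.Prime m : ℝ) ≤ x := by
      have : Nat.nth Nat.Prime m ≤ x := by omega
      exact_mod_cast this
    linarith

end Pool.Agent.H93.CG
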