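import Pool.Graph.R_pool_sql_team_seeded_c8625f6e.K4H10.EX.Euler

set_option autoImplicit false

/-! # Smooth numbers without loss of a logarithm (helper93) -/

namespace Pool.Agent.H93.CG

open Finset Pool.Agent.H318R2.Cr Pool.Agent.H398R2.RK Pool.Agent.K4H10.EX

open scoped Classical

/-- the `v`-smooth numbers up to `N` -/
noncomputable def SM (v N : ℕ) : Finset ℕ :=
  (Icc 1 N).filter (fun n => ∀ p : ℕ, p.Prime → p ∣ n → p ≤ v)

theorem log_le_rpow {t a : ℝ} (ht : 0 < t) (ha : 3 / 4 ≤ a) : Real.log t ≤ 2 * t ^ a := by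
  have h1 : Real.log (t ^ a) ≤ t ^ a := by
    have := Real.log_le_sub_one_of_pos (Real.rpow_pos_of_pos ht a)
    linarith
  rw [Real.log_rpow ht] at h1
  have h2 : 0 < t ^ a := Real.rpow_pos_of_pos ht a
  rcases le_or_gt (Real.log t) 0 with h | h
  · linarith
  · nlinarith

theorem psi_smooth {η : ℝ} (hη0 : 0 ≤ η) (hη1 : η ≤ 1 / 4) (v K : ℕ) (hv : 1 ≤ v) (hK : 1 ≤ K) :
    ∑ d ∈ SM v K, ArithmeticFunction.vonMangoldt d ≤ 10 * ((K : ℝ) ^ (1 - η) * (v : ℝ) ^ η) := by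
  have hK0 : (1 : ℝ) ≤ K := by exact_mod_cast hK
  have hv0 : (1 : ℝ) ≤ v := by exact_mod_cast hv
  -- split
  have h1 : ∑ d ∈ SM v K, ArithmeticFunction.vonMangoldt d ≤
      Chebyshev.theta ((min v K : ℕ) : ℝ) + (Chebyshev.psi K - Chebyshev.theta K) := by
    rw [Chebyshev.psi_sub_theta_eq_sum_not_prime, Chebyshev.theta_eq_sum_Icc, Nat.floor_natCast,
      Nat.floor_natCast]
    rw [← sum_filter_add_sum_filter_not (SM v K) (fun d => d.Prime)]
    apply add_le_add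
    · calc ∑ d ∈ (SM v K).filter (fun d => d.Prime), ArithmeticFunction.vonMangoldt d
          = ∑ d ∈ (SM v K).filter (fun d => d.Prime), Real.log d := by
            refine sum_congr rfl fun d hd => ?_
            exact ArithmeticFunction.vonMangoldt_apply_prime (mem_filter.1 hd).2
        _ ≤ _ := by
            apply sum_le_sum_of_subset_of_nonneg
            · intro d hd
              rw [mem_filter, SM, mem_filter, mem_Icc] at hd
              rw [mem_filter, mem_Icc]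
              exact ⟨⟨by omega, le_min (hd.1.2 d hd.2 dvd_rfl) hd.1.1.2⟩, hd.2⟩
            · intro d _ _
              exact Real.log_natCast_nonneg d
    · apply sum_le_sum_of_subset_of_nonneg
      · intro d hd
        rw [mem_filter, SM, mem_filter, mem_Icc] at hd
        rw [mem_filter]
        refine ⟨?_, hd.2⟩
        rw [mem_Ioc]
        omega
      · intro d _ _
        exact ArithmeticFunction.vonMangoldt_nonneg
  have h2 := Chebyshev.theta_le_log4_mul_x (x := ((min v K : ℕ) : ℝ)) (by positivity)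
  have h3 := Chebyshev.psi_sub_theta_le hK0
  have h4 : Real.log 4 ≤ 1.4 := by
    have : Real.log 4 = 2 * Real.log 2 := by
      rw [show (4 : ℝ) = 2 ^ 2 by norm_num, Real.log_pow]; norm_num
    have := Real.log_two_lt_d9
    linarith
  have h5 : ((min v K : ℕ) : ℝ) ≤ (K : ℝ) ^ (1 - η) * (v : ℝ) ^ η := by
    have e1 : ((min v K : ℕ) : ℝ) ≤ K := by exact_mod_cast min_le_right _ _
    have e2 : ((min v K : ℕ) : ℝ) ≤ v := by exact_mod_cast min_le_left _ _
    have e3 : (0 : ℝ) < ((min v K : ℕ) : ℝ) := by exact_mod_cast (lt_min hv hK)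
    calc ((min v K : ℕ) : ℝ) = ((min v K : ℕ) : ℝ) ^ (1 - η) * ((min v K : ℕ) : ℝ) ^ η := by
          rw [← Real.rpow_add e3]; simp
      _ ≤ _ := by
          apply mul_le_mul (Real.rpow_le_rpow e3.le e1 (by linarith))
            (Real.rpow_le_rpow e3.le e2 hη0) (by positivity) (by positivity)
  have h6 : √(K : ℝ) * Real.log K ≤ 4 * ((K : ℝ) ^ (1 - η) * (v : ℝ) ^ η) := by
    have e1 : Real.log K ≤ 4 * (K : ℝ) ^ (1 / 4 : ℝ) := by
      have := Real.log_le_sub_one_of_pos (Real.rpow_pos_of_pos (by linarith : (0 : ℝ) < K) (1 / 4))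
      rw [Real.log_rpow (by linarith)] at this
      linarith
    have e2 : (1 : ℝ) ≤ (v : ℝ) ^ η := Real.one_le_rpow hv0 hη0
    calc √(K : ℝ) * Real.log K ≤ (K : ℝ) ^ (1 / 2 : ℝ) * (4 * (K : ℝ) ^ (1 / 4 : ℝ)) := by
          rw [Real.sqrt_eq_rpow]; gcongr
      _ = 4 * (K : ℝ) ^ (3 / 4 : ℝ) := by
          rw [show (3 / 4 : ℝ) = 1 / 2 + 1 / 4 by norm_num, Real.rpow_add (by linarith)]; ring
      _ ≤ 4 * (K : ℝ) ^ (1 - η) := by
          have := Real.rpow_le_rpow_of_exponent_le hK0 (show (3 / 4 : ℝ) ≤ 1 - η by linarith)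
          linarith
      _ ≤ 4 * ((K : ℝ) ^ (1 - η) * (v : ℝ) ^ η) := by
          have e3 : 0 ≤ (K : ℝ) ^ (1 - η) := by positivity
          nlinarith
  have h7 : 0 ≤ (K : ℝ) ^ (1 - η) * (v : ℝ) ^ η := by positivity
  have h8 : Real.log 4 * ((min v K : ℕ) : ℝ) ≤ 1.4 * ((K : ℝ) ^ (1 - η) * (v : ℝ) ^ η) := by
    apply mul_le_mul h4 h5 (by positivity) (by norm_num)
  nlinarith

/-- the sum of the logarithms -/
theorem sum_log {η : ℝ} (hη0 : 0 ≤ η) (hη1 : η ≤ 1 / 4) (v N : ℕ) (hv : 1 ≤ v) :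
    ∑ n ∈ SM v N, Real.log n ≤
      10 * ((N : ℝ) ^ (1 - η) * (v : ℝ) ^ η) * ∑ m ∈ SM v N, (m : ℝ) ^ (-(1 - η)) := by
  have h1 : ∑ n ∈ SM v N, Real.log n =
      ∑ x ∈ (SM v N).sigma (fun n => n.divisors), ArithmeticFunction.vonMangoldt x.2 := by
    rw [sum_sigma]
    exact sum_congr rfl fun n _ => ArithmeticFunction.vonMangoldt_sum.symm
  have h2 : ∑ x ∈ (SM v N).sigma (fun n => n.divisors), ArithmeticFunction.vonMangoldt x.2 ≤
      ∑ x ∈ (SM v N).sigma (fun m => SM v (N / m)), ArithmeticFunction.vonMangoldt x.2 := by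
    have hinj : Set.InjOn (fun x : (_ : ℕ) × ℕ => (⟨x.1 / x.2, x.2⟩ : (_ : ℕ) × ℕ))
        ((SM v N).sigma (fun n => n.divisors) : Set ((_ : ℕ) × ℕ)) := by
      rintro ⟨n, d⟩ h ⟨n', d'⟩ h' heq
      rw [mem_coe, mem_sigma] at h h'
      simp only [Sigma.mk.injEq, heq_eq_eq] at heq
      obtain ⟨h3, rfl⟩ := heq
      have e1 := Nat.div_mul_cancel (Nat.dvd_of_mem_divisors h.2)
      have e2 := Nat.div_mul_cancel (Nat.dvd_of_mem_divisors h'.2)
      simp only at e1 e2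
      rw [h3, e2] at e1
      rw [e1]
    rw [← sum_image (f := fun x : (_ : ℕ) × ℕ => ArithmeticFunction.vonMangoldt x.2) hinj]
    apply sum_le_sum_of_subset_of_nonneg
    · intro y hy
      rw [mem_image] at hy
      obtain ⟨⟨n, d⟩, hx, rfl⟩ := hy
      rw [mem_sigma] at hx ⊢
      simp only at hx ⊢
      obtain ⟨hn, hd⟩ := hx
      have hdn := Nat.dvd_of_mem_divisors hd
      obtain ⟨m, rfl⟩ := hdn
      rw [SM, mem_filter, mem_Icc] at hn
      have hd0 : 0 < d := by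
        rcases Nat.eq_zero_or_pos d with h | h
        · rw [h] at hn; simp at hn
        · exact h
      have hm0 : 0 < m := by
        rcases Nat.eq_zero_or_pos m with h | h
        · rw [h] at hn; simp at hn
        · exact h
      rw [Nat.mul_div_cancel_left m hd0]
      constructor
      · rw [SM, mem_filter, mem_Icc]
        refine ⟨⟨hm0, le_trans (Nat.le_mul_of_pos_left m hd0) hn.1.2⟩, fun p hp hpm => ?_⟩
        exact hn.2 p hp (hpm.mul_left d)
      · rw [SM, mem_filter, mem_Icc]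
        refine ⟨⟨hd0, ?_⟩, fun p hp hpd => hn.2 p hp (hpd.mul_right m)⟩
        rw [Nat.le_div_iff_mul_le hm0]
        exact hn.1.2
    · intro y _ _
      exact ArithmeticFunction.vonMangoldt_nonneg
  rw [h1]
  refine h2.trans ?_
  rw [sum_sigma, mul_sum]
  refine sum_le_sum fun m hm => ?_
  rw [SM, mem_filter, mem_Icc] at hm
  have hm0 : (0 : ℝ) < m := by exact_mod_cast hm.1.1
  have hK : 1 ≤ N / m := by
    rw [Nat.le_div_iff_mul_le hm.1.1]; omega
  have h3 := psi_smooth hη0 hη1 v (N / m) hv hK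
  refine h3.trans ?_
  have h4 : ((N / m : ℕ) : ℝ) ≤ (N : ℝ) / m := Nat.cast_div_le
  have h5 : ((N / m : ℕ) : ℝ) ^ (1 - η) ≤ (N : ℝ) ^ (1 - η) * (m : ℝ) ^ (-(1 - η)) := by
    rw [Real.rpow_neg hm0.le, ← div_eq_mul_inv, ← Real.div_rpow (by positivity) hm0.le]
    exact Real.rpow_le_rpow (by positivity) h4 (by linarith)
  calc 10 * (((N / m : ℕ) : ℝ) ^ (1 - η) * (v : ℝ) ^ η)
      ≤ 10 * (((N : ℝ) ^ (1 - η) * (m : ℝ) ^ (-(1 - η))) * (v : ℝ) ^ η) := by gcongr
    _ = _ := by ring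

/-- Rankin's trick with the gain of `log N` -/
theorem smooth_gain : ∃ C : ℝ, 1 ≤ C ∧ ∀ (η : ℝ) (v N : ℕ), 0 ≤ η → η ≤ 1 / 4 → 2 ≤ v → 1 ≤ N →
    ((SM v N).card : ℝ) * Real.log N ≤
      (N : ℝ) ^ (1 - η) * (v : ℝ) ^ η * (C * Real.log v * Real.exp ((v : ℝ) ^ η * (1 + C / Real.log v))) := by
  obtain ⟨C, hC, h⟩ := euler_sharp
  refine ⟨12 * C, by linarith, fun η v N hη0 hη1 hv hN => ?_⟩
  have hv1 : (1 : ℝ) < v := by exact_mod_cast (by omega : 1 < v)
  have hlv : 0 < Real.log v := Real.log_pos hv1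
  have h1 := h η v hη0 hη1 hv
  have h2 := smooth_tsum (σ := 1 - η) (by linarith) v N
  have h3 : ∑ m ∈ SM v N, (m : ℝ) ^ (-(1 - η)) ≤
      C * Real.log v * Real.exp ((v : ℝ) ^ η * (1 + C / Real.log v)) := h2.trans h1
  set R := ∑ m ∈ SM v N, (m : ℝ) ^ (-(1 - η)) with hR
  have hR0 : 0 ≤ R := sum_nonneg fun m _ => by positivity
  have hN0 : (0 : ℝ) < N := by exact_mod_cast hN
  have h4 : ((SM v N).card : ℝ) * Real.log N =
      ∑ n ∈ SM v N, Real.log n + ∑ n ∈ SM v N, Real.log ((N : ℝ) / n) := by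
    rw [← sum_add_distrib, ← nsmul_eq_mul, ← sum_const]
    refine sum_congr rfl fun n hn => ?_
    rw [SM, mem_filter, mem_Icc] at hn
    have hn0 : (0 : ℝ) < n := by exact_mod_cast hn.1.1
    rw [Real.log_div hN0.ne' hn0.ne']
    ring
  have h5 : ∑ n ∈ SM v N, Real.log ((N : ℝ) / n) ≤ 2 * (N : ℝ) ^ (1 - η) * R := by
    rw [hR, mul_sum]
    refine sum_le_sum fun n hn => ?_
    rw [SM, mem_filter, mem_Icc] at hn
    have hn0 : (0 : ℝ) < n := by exact_mod_cast hn.1.1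
    refine (log_le_rpow (by positivity) (show (3 : ℝ) / 4 ≤ 1 - η by linarith)).trans (le_of_eq ?_)
    rw [Real.rpow_neg hn0.le, Real.div_rpow hN0.le hn0.le]
    ring
  have h6 := sum_log hη0 hη1 v N (by omega)
  rw [h4]
  have hvη : (1 : ℝ) ≤ (v : ℝ) ^ η := Real.one_le_rpow hv1.le hη0
  have hNη : 0 ≤ (N : ℝ) ^ (1 - η) := by positivity
  have h7 : ∑ n ∈ SM v N, Real.log n + ∑ n ∈ SM v N, Real.log ((N : ℝ) / n) ≤
      12 * ((N : ℝ) ^ (1 - η) * (v : ℝ) ^ η) * R := by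
    have e1 : 2 * (N : ℝ) ^ (1 - η) * R ≤ 2 * ((N : ℝ) ^ (1 - η) * (v : ℝ) ^ η) * R := by
      apply mul_le_mul_of_nonneg_right _ hR0
      nlinarith
    linarith
  refine h7.trans ?_
  calc 12 * ((N : ℝ) ^ (1 - η) * (v : ℝ) ^ η) * R
      ≤ 12 * ((N : ℝ) ^ (1 - η) * (v : ℝ) ^ η) *
        (C * Real.log v * Real.exp ((v : ℝ) ^ η * (1 + C / Real.log v))) := by gcongr
    _ = (N : ℝ) ^ (1 - η) * (v : ℝ) ^ η * (12 * C * Real.log v *
        Real.exp ((v : ℝ) ^ η * (1 + C / Real.log v))) := by ring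
    _ ≤ _ := by
        gcongr
        linarith

end Pool.Agent.H93.CG
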