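import Pool.Agent.H93.CG.Smooth
import Pool.Graph.R_seed8.H398R2.RK.Surv2
import Pool.Graph.R_pool_sql_team_seeded_c8625f6e.K4H10.EX.Rough

set_option autoImplicit false

/-! # The sieve by the small primes with the sharp constant (helper93) -/

namespace Pool.Agent.H93.CG

open Finset Filter Pool.Agent.H318R2.Cr Pool.Agent.H398R2.RK Pool.Agent.K4H10.EX

open scoped Classical

/-- the logarithm of the bound between the greedy primes and the others -/
noncomputable def V0 (ε t : ℝ) : ℝ := Real.exp t * Real.log t / ((1 + ε) * t)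

theorem smooth_small (ε : ℝ) (hε : 0 < ε) (hε1 : ε ≤ 1) : ∃ t₀ : ℝ, ∀ t : ℝ, t₀ ≤ t →
    ∀ v N : ℕ, 2 ≤ v → Real.log v ≤ V0 ε t → Real.exp t ≤ Real.log N →
    ((SM v N).card : ℝ) ≤ ε * N * t / Real.exp t := by
  obtain ⟨C, hC, h⟩ := smooth_gain
  have e1 : ∀ᶠ t : ℝ in atTop, (1 + 2 * C) * t ^ (1 - ε / 4) ≤ ε / 4 * t := by
    have h1 : ∀ᶠ t : ℝ in atTop, (1 + 2 * C) / (ε / 4) ≤ t ^ (ε / 4) :=
      (tendsto_rpow_atTop (show 0 < ε / 4 by positivity)).eventually_ge_atTop _
    filter_upwards [h1, eventually_gt_atTop (0 : ℝ)] with t ht ht0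
    rw [div_le_iff₀ (by positivity)] at ht
    rw [Real.rpow_sub ht0, Real.rpow_one, mul_div_assoc', div_le_iff₀ (by positivity)]
    nlinarith
  have e2 : ∀ᶠ t : ℝ in atTop, Real.log (C / ε) ≤ ε / 4 * t := by
    filter_upwards [eventually_ge_atTop (Real.log (C / ε) / (ε / 4))] with t ht
    rw [div_le_iff₀ (by positivity)] at ht
    linarith
  obtain ⟨t₀, ht₀⟩ := eventually_atTop.1 ((e1.and e2).and (eventually_ge_atTop (16 : ℝ)))
  refine ⟨t₀, fun t ht v N hv hlv hN => ?_⟩
  obtain ⟨⟨g1, g2⟩, g3⟩ := ht₀ t ht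
  have ht0 : 0 < t := by linarith
  have hlt : 1 ≤ Real.log t := by
    rw [Real.le_log_iff_exp_le ht0]
    have := Real.exp_one_lt_d9
    linarith
  have hltt : Real.log t ≤ t := by
    have := Real.log_le_sub_one_of_pos ht0
    linarith
  have het : t ^ 2 / 2 ≤ Real.exp t := by
    have := Real.quadratic_le_exp_of_nonneg ht0.le
    linarith
  have het0 : 0 < Real.exp t := Real.exp_pos t
  set V := V0 ε t with hV
  have hVpos : 0 < V := by rw [hV, V0]; positivity
  set s : ℝ := (1 - ε / 4) * Real.log t with hs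
  have hs0 : 0 ≤ s := by rw [hs]; apply mul_nonneg <;> linarith
  set η : ℝ := s / V with hη
  have hη0 : 0 ≤ η := by rw [hη]; positivity
  have hsV : s * Real.exp t = (1 - ε / 4) * (1 + ε) * t * V := by
    rw [hV, V0, hs]
    field_simp
  have hη1 : η ≤ 1 / 4 := by
    rw [hη, div_le_iff₀ hVpos, hs, hV, V0]
    rw [show 1 / 4 * (Real.exp t * Real.log t / ((1 + ε) * t)) =
      Real.log t * (Real.exp t / (4 * ((1 + ε) * t))) by field_simp]
    rw [mul_comm]
    apply mul_le_mul_of_nonneg_left _ (by linarith)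
    rw [le_div_iff₀ (by positivity)]
    have q1 : (1 - ε / 4) * (1 + ε) ≤ 2 := by nlinarith
    have q2 : (1 - ε / 4) * (4 * ((1 + ε) * t)) ≤ 8 * t := by
      have := mul_le_mul_of_nonneg_right q1 (show 0 ≤ 4 * t by linarith)
      linarith
    nlinarith
  have hv1 : (1 : ℝ) < v := by exact_mod_cast (by omega : 1 < v)
  have hv2 : (2 : ℝ) ≤ v := by exact_mod_cast hv
  have hlv0 : 0 < Real.log v := Real.log_pos hv1
  have hN0 : 0 < Real.log N := het0.trans_le hN
  have hN1 : 1 ≤ N := by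
    rcases Nat.eq_zero_or_pos N with h0 | h0
    · rw [h0] at hN0; simp at hN0
    · exact h0
  have hNr : (0 : ℝ) < N := by exact_mod_cast hN1
  have h1 := h η v N hη0 hη1 hv hN1
  -- the parts
  have hvη : (v : ℝ) ^ η ≤ t ^ (1 - ε / 4) := by
    rw [Real.rpow_def_of_pos (by linarith), Real.rpow_def_of_pos ht0]
    apply Real.exp_le_exp.2
    calc Real.log v * η ≤ V * η := mul_le_mul_of_nonneg_right hlv hη0
      _ = s := by rw [hη]; field_simp
      _ = Real.log t * (1 - ε / 4) := by rw [hs]; ring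
  have hvη1 : t ^ (1 - ε / 4) ≤ t := by
    calc t ^ (1 - ε / 4) ≤ t ^ (1 : ℝ) := Real.rpow_le_rpow_of_exponent_le (by linarith) (by linarith)
      _ = t := Real.rpow_one t
  have hNη : (N : ℝ) ^ (1 - η) ≤ N * Real.exp (-((1 + ε / 2) * t)) := by
    rw [Real.rpow_sub hNr, Real.rpow_one, div_eq_mul_inv, ← Real.rpow_neg hNr.le]
    apply mul_le_mul_of_nonneg_left _ hNr.le
    rw [Real.rpow_def_of_pos hNr]
    apply Real.exp_le_exp.2
    have e3 : (1 + ε / 2) * t ≤ Real.exp t * η := by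
      rw [hη, mul_div_assoc', mul_comm (Real.exp t), hsV, le_div_iff₀ hVpos]
      apply mul_le_mul_of_nonneg_right _ hVpos.le
      apply mul_le_mul_of_nonneg_right _ ht0.le
      nlinarith
    have e4 : Real.exp t * η ≤ Real.log N * η := mul_le_mul_of_nonneg_right hN hη0
    linarith
  have hC1 : C / Real.log v ≤ 2 * C := by
    rw [div_le_iff₀ hlv0]
    have : Real.log 2 ≤ Real.log v := Real.log_le_log (by norm_num) hv2
    have := Real.log_two_gt_d9
    nlinarith
  have hex : Real.exp ((v : ℝ) ^ η * (1 + C / Real.log v)) ≤ Real.exp (ε / 4 * t) := by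
    apply Real.exp_le_exp.2
    have : (v : ℝ) ^ η * (1 + C / Real.log v) ≤ t ^ (1 - ε / 4) * (1 + 2 * C) := by
      apply mul_le_mul hvη (by linarith) (by positivity) (by positivity)
    linarith
  have hVe : V ≤ Real.exp t := by
    rw [hV, V0, div_le_iff₀ (by positivity)]
    apply mul_le_mul_of_nonneg_left _ het0.le
    nlinarith
  have hlN : Real.log v ≤ Real.log N := (hlv.trans hVe).trans hN
  have hCε : C ≤ ε * Real.exp (ε / 4 * t) := by
    rw [Real.log_le_iff_le_exp (by positivity), div_le_iff₀ hε] at g2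
    linarith
  have h2 : ((SM v N).card : ℝ) * Real.log N ≤
      (ε * N * t / Real.exp t) * Real.log N := by
    refine h1.trans ?_
    calc (N : ℝ) ^ (1 - η) * (v : ℝ) ^ η * (C * Real.log v *
          Real.exp ((v : ℝ) ^ η * (1 + C / Real.log v)))
        ≤ (N * Real.exp (-((1 + ε / 2) * t))) * t * ((ε * Real.exp (ε / 4 * t)) * Real.log N *
          Real.exp (ε / 4 * t)) := by
          have : 0 < (v : ℝ) ^ η := by positivity
          have := hvη.trans hvη1
          gcongr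
      _ = (ε * N * t * Real.log N) * (Real.exp (-((1 + ε / 2) * t)) * Real.exp (ε / 4 * t) *
          Real.exp (ε / 4 * t)) := by ring
      _ = (ε * N * t * Real.log N) * Real.exp (-t) := by
          rw [← Real.exp_add, ← Real.exp_add]
          congr 2
          ring
      _ = _ := by rw [Real.exp_neg]; ring
  exact le_of_mul_le_mul_right h2 hN0

/-- multiples of primes above `Y` -/
theorem large_factor (M U : ℕ) :
    (((Icc 1 U).filter (fun k => ∃ p : ℕ, p.Prime ∧ M < p ∧ p ∣ k)).card : ℝ) ≤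
      U * ∑ p ∈ (Ioc M U).filter Nat.Prime, (1 : ℝ) / p := by
  have h1 : (Icc 1 U).filter (fun k => ∃ p : ℕ, p.Prime ∧ M < p ∧ p ∣ k) ⊆
      ((Ioc M U).filter Nat.Prime).biUnion (fun p => (Ioc 0 U).filter (fun k => p ∣ k)) := by
    intro k hk
    rw [mem_filter, mem_Icc] at hk
    obtain ⟨⟨hk1, hk2⟩, p, hp, hpM, hpk⟩ := hk
    rw [mem_biUnion]
    refine ⟨p, ?_, ?_⟩
    · rw [mem_filter, mem_Ioc]
      exact ⟨⟨hpM, (Nat.le_of_dvd hk1 hpk).trans hk2⟩, hp⟩
    · rw [mem_filter, mem_Ioc]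
      exact ⟨⟨hk1, hk2⟩, hpk⟩
  calc (((Icc 1 U).filter (fun k => ∃ p : ℕ, p.Prime ∧ M < p ∧ p ∣ k)).card : ℝ)
      ≤ ∑ p ∈ (Ioc M U).filter Nat.Prime, (((Ioc 0 U).filter (fun k => p ∣ k)).card : ℝ) := by
        exact_mod_cast (card_le_card h1).trans card_biUnion_le
    _ ≤ ∑ p ∈ (Ioc M U).filter Nat.Prime, (U : ℝ) * (1 / p) := by
        refine sum_le_sum fun p hp => ?_
        rw [Nat.Ioc_filter_dvd_card_eq_div]
        calc ((U / p : ℕ) : ℝ) ≤ (U : ℝ) / p := Nat.cast_div_le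
          _ = _ := by ring
    _ = _ := by rw [mul_sum]

/-- the number of integers free of the primes between `v` and `Y` -/
theorem rough_count (ε : ℝ) (hε : 0 < ε) (hε1 : ε ≤ 1) : ∃ t₀ : ℝ, ∀ t : ℝ, t₀ ≤ t →
    ∀ v M U : ℕ, 2 ≤ v → Real.log v ≤ V0 ε t → Real.exp t - 1 ≤ Real.log M →
    Real.exp t ≤ Real.log U → Real.log U ≤ Real.exp t + 2 * t → M ≤ U →
    (((Icc 1 U).filter (fun k => ∀ p : ℕ, p.Prime → v < p → p ≤ M → ¬ p ∣ k)).card : ℝ) ≤
      (2 + ε) * U * t / Real.exp t := by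
  obtain ⟨t₁, h1⟩ := smooth_small (ε / 4) (by positivity) (by linarith)
  obtain ⟨C, hC0, hC⟩ := Helper923.HMertens.mertens_ratio
  have e1 : ∀ᶠ t : ℝ in atTop, (2 * t + 1) + C ≤ (2 + ε / 2) * t := by
    filter_upwards [eventually_ge_atTop ((1 + C) / (ε / 2))] with t ht
    rw [div_le_iff₀ (by positivity)] at ht
    linarith
  have e2 : ∀ᶠ t : ℝ in atTop, (2 + ε / 2) * t / (Real.exp t - 1) ≤ (2 + 3 / 4 * ε) * t / Real.exp t := by
    filter_upwards [eventually_ge_atTop (1 : ℝ), eventually_ge_atTop (16 / ε)] with t ht ht2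
    have h2 : 16 / ε < Real.exp t := by
      have := Real.add_one_le_exp t
      linarith
    rw [div_lt_iff₀ hε] at h2
    have h3 : 1 < Real.exp t := Real.one_lt_exp_iff.2 (by linarith)
    rw [div_le_div_iff₀ (by linarith) (by linarith)]
    have : (2 + ε / 2) * Real.exp t ≤ (2 + 3 / 4 * ε) * (Real.exp t - 1) := by nlinarith
    nlinarith
  obtain ⟨t₂, h2⟩ := eventually_atTop.1 ((e1.and e2).and (eventually_ge_atTop (8 : ℝ)))
  refine ⟨max t₁ t₂, fun t ht v M U hv hlv hM hU hU2 hMU => ?_⟩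
  obtain ⟨⟨g1, g2⟩, g3⟩ := h2 t ((le_max_right _ _).trans ht)
  have het0 : 0 < Real.exp t := Real.exp_pos t
  have he8 : 9 ≤ Real.exp t := by
    have := Real.add_one_le_exp t
    linarith
  have hM0 : 0 < Real.log M := by linarith
  have hM2 : 2 ≤ M := by
    by_contra hcon
    push Not at hcon
    interval_cases M <;> simp at hM0
  have hV : V0 ε t ≤ V0 (ε / 4) t := by
    unfold V0
    have : 0 < Real.log t := Real.log_pos (by linarith)
    apply div_le_div_of_nonneg_left (by positivity) (by positivity)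
    apply mul_le_mul_of_nonneg_right (by linarith) (by linarith)
  have h3 := h1 t ((le_max_left _ _).trans ht) v U hv (hlv.trans hV) hU
  have h4 := large_factor M U
  have h5 := (abs_le.1 (hC M U hM2 hMU)).2
  have h6 : (Icc 1 U).filter (fun k => ∀ p : ℕ, p.Prime → v < p → p ≤ M → ¬ p ∣ k) ⊆
      SM v U ∪ (Icc 1 U).filter (fun k => ∃ p : ℕ, p.Prime ∧ M < p ∧ p ∣ k) := by
    intro k hk
    rw [mem_filter] at hk
    rw [mem_union, SM, mem_filter, mem_filter]
    by_cases h : ∀ p : ℕ, p.Prime → p ∣ k → p ≤ v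
    · left; exact ⟨hk.1, h⟩
    · right
      push Not at h
      obtain ⟨p, hp, hpk, hpv⟩ := h
      refine ⟨hk.1, p, hp, ?_, hpk⟩
      by_contra hcon
      exact hk.2 p hp hpv (not_lt.1 hcon) hpk
  have h7 : (((Icc 1 U).filter (fun k => ∀ p : ℕ, p.Prime → v < p → p ≤ M → ¬ p ∣ k)).card : ℝ) ≤
      ((SM v U).card : ℝ) + (((Icc 1 U).filter (fun k => ∃ p : ℕ, p.Prime ∧ M < p ∧ p ∣ k)).card : ℝ) := by
    exact_mod_cast (card_le_card h6).trans (card_union_le _ _)
  -- the sum of the reciprocals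
  have h8 : Real.log (Real.log U / Real.log M) ≤ (2 * t + 1) / (Real.exp t - 1) := by
    have hq : 0 < Real.log U / Real.log M := by
      have : 0 < Real.log U := by linarith
      positivity
    have h9 := Real.log_le_sub_one_of_pos hq
    refine h9.trans ?_
    rw [div_sub_one hM0.ne']
    calc (Real.log U - Real.log M) / Real.log M ≤ (2 * t + 1) / Real.log M := by
          apply div_le_div_of_nonneg_right _ hM0.le
          linarith
      _ ≤ _ := by
          apply div_le_div_of_nonneg_left (by linarith) (by linarith) hM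
  have h10 : C / Real.log M ≤ C / (Real.exp t - 1) :=
    div_le_div_of_nonneg_left hC0 (by linarith) hM
  have h11 : ∑ p ∈ (Ioc M U).filter Nat.Prime, (1 : ℝ) / p ≤ (2 + 3 / 4 * ε) * t / Real.exp t := by
    refine le_trans ?_ g2
    have : (2 * t + 1) / (Real.exp t - 1) + C / (Real.exp t - 1) ≤
        (2 + ε / 2) * t / (Real.exp t - 1) := by
      rw [← add_div]
      apply div_le_div_of_nonneg_right g1 (by linarith)
    linarith
  have hU0 : (0 : ℝ) ≤ U := Nat.cast_nonneg U
  have h12 := mul_le_mul_of_nonneg_left h11 hU0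
  have h13 : (U : ℝ) * ((2 + 3 / 4 * ε) * t / Real.exp t) + ε / 4 * U * t / Real.exp t =
      (2 + ε) * U * t / Real.exp t := by ring
  linarith

/-- ratio of Mertens products -/
theorem mp_ratio : ∃ C : ℝ, 0 ≤ C ∧ ∀ (v : ℕ) (W : ℝ), 2 ≤ v → (v : ℝ) ≤ W →
    (∏ p ∈ (Icc 1 v).filter Nat.Prime, (1 - 1 / (p : ℝ))) * MP W ≤
      Real.log W / Real.log v * Real.exp (C / Real.log v) := by
  obtain ⟨C, hC0, hC⟩ := Helper923.HMertens.mertens_ratio
  refine ⟨C + 2, by linarith, fun v W hv hvW => ?_⟩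
  have hv1 : (1 : ℝ) < v := by exact_mod_cast (by omega : 1 < v)
  have hlv0 : 0 < Real.log v := Real.log_pos hv1
  set w : ℕ := ⌊W⌋₊ with hw
  have hvw : v ≤ w := Nat.le_floor hvW
  have hwW : (w : ℝ) ≤ W := Nat.floor_le (by linarith)
  have hpos : ∀ p ∈ (Icc 1 v).filter Nat.Prime, 0 < 1 - 1 / (p : ℝ) := fun p hp =>
    one_sub_inv_pos (mem_filter.1 hp).2
  have h1 : MP W = (∏ p ∈ (Icc 1 v).filter Nat.Prime, (1 - 1 / (p : ℝ)))⁻¹ *
      ∏ p ∈ (Ioc v w).filter Nat.Prime, (1 - 1 / (p : ℝ))⁻¹ := by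
    unfold MP
    rw [← hw, ← prod_inv_distrib]
    have e1 : (Icc 1 w).filter Nat.Prime = (Icc 1 v).filter Nat.Prime ∪ (Ioc v w).filter Nat.Prime := by
      rw [← filter_union]
      congr 1
      ext p
      rw [mem_union, mem_Icc, mem_Icc, mem_Ioc]
      omega
    have e2 : Disjoint ((Icc 1 v).filter Nat.Prime) ((Ioc v w).filter Nat.Prime) := by
      rw [disjoint_left]
      intro p hp hq
      rw [mem_filter, mem_Icc] at hp
      rw [mem_filter, mem_Ioc] at hq
      omega
    rw [e1, prod_union e2]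
    simp only [one_div]
  rw [h1, ← mul_assoc, mul_inv_cancel₀ (prod_pos hpos).ne', one_mul]
  have h2 : ∏ p ∈ (Ioc v w).filter Nat.Prime, (1 - 1 / (p : ℝ))⁻¹ ≤
      ∏ p ∈ (Ioc v w).filter Nat.Prime, Real.exp (1 / (p : ℝ) + 2 * (1 / (p : ℝ)) ^ 2) := by
    apply Finset.prod_le_prod
    · intro p hp
      exact inv_nonneg.2 (one_sub_inv_pos (mem_filter.1 hp).2).le
    · intro p hp
      have hp2 : (2 : ℝ) ≤ p := by exact_mod_cast (mem_filter.1 hp).2.two_le
      have e1 := exp_le_one_sub (x := 1 / (p : ℝ)) (by positivity)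
        (one_div_le_one_div_of_le (by norm_num) hp2)
      have e2 : Real.exp (1 / (p : ℝ) + 2 * (1 / (p : ℝ)) ^ 2) =
          (Real.exp (-(1 / (p : ℝ)) - 2 * (1 / (p : ℝ)) ^ 2))⁻¹ := by
        rw [← Real.exp_neg]; congr 1; ring
      rw [e2]
      exact inv_anti₀ (Real.exp_pos _) e1
  refine h2.trans ?_
  rw [← Real.exp_sum, sum_add_distrib, ← mul_sum]
  have h3 := (abs_le.1 (hC v w hv hvw)).2
  have h4 : ∑ p ∈ (Ioc v w).filter Nat.Prime, (1 / (p : ℝ)) ^ 2 ≤ (1 : ℝ) / v := by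
    calc ∑ p ∈ (Ioc v w).filter Nat.Prime, (1 / (p : ℝ)) ^ 2
        ≤ ∑ p ∈ Ioc v w, (1 / (p : ℝ)) ^ 2 := by
          apply sum_le_sum_of_subset_of_nonneg (filter_subset _ _)
          intro p _ _
          positivity
      _ = ∑ p ∈ Ioc v w, ((p : ℝ) ^ 2)⁻¹ := by
          refine sum_congr rfl fun p _ => ?_
          rw [one_div, inv_pow]
      _ ≤ (v : ℝ)⁻¹ - (w : ℝ)⁻¹ := sum_Ioc_inv_sq_le_sub (by omega) hvw
      _ ≤ _ := by
          have : (0 : ℝ) ≤ (w : ℝ)⁻¹ := by positivity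
          rw [one_div]
          linarith
  have h5 : 1 / (v : ℝ) ≤ 1 / Real.log v := by
    apply one_div_le_one_div_of_le hlv0
    have := Real.log_le_sub_one_of_pos (show (0 : ℝ) < v by linarith)
    linarith
  have h6 : Real.log (Real.log w / Real.log v) ≤ Real.log (Real.log W / Real.log v) := by
    have : Real.log v ≤ Real.log w := Real.log_le_log (by linarith) (by exact_mod_cast hvw)
    apply Real.log_le_log (by
      have : 0 < Real.log w := by linarith
      positivity)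
    apply div_le_div_of_nonneg_right _ hlv0.le
    apply Real.log_le_log _ hwW
    have : (v : ℝ) ≤ w := by exact_mod_cast hvw
    linarith
  have hlW : 0 < Real.log W := by
    apply Real.log_pos; linarith
  calc Real.exp (∑ p ∈ (Ioc v w).filter Nat.Prime, 1 / (p : ℝ) +
        2 * ∑ p ∈ (Ioc v w).filter Nat.Prime, (1 / (p : ℝ)) ^ 2)
      ≤ Real.exp (Real.log (Real.log W / Real.log v) + (C + 2) / Real.log v) := by
        apply Real.exp_le_exp.2
        have : (C + 2) / Real.log v = C / Real.log v + 2 * (1 / Real.log v) := by ring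
        linarith
    _ = _ := by
        rw [Real.exp_add, Real.exp_log (by positivity)]

end Pool.Agent.H93.CG
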